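import Pool.Agent.H28Z.DaDefs

open Metric Set Filter Topology

noncomputable section

namespace Pool.Agent.H28Z.Da

section trfAlg

variable {A X : Type*} [AddCommGroup A] [Module ℂ A] [AddCommGroup X] [Module ℂ X]

theorem trf_pow_eig (T : A →ₗ[ℂ] A) (l : ℂ) (f : A) (hf : T f = l • f) (n : ℕ) :
    (T ^ n) f = l ^ n • f := by
  induction n with
  | zero => simp
  | succ n ih => rw [pow_succ', Module.End.mul_apply, ih, map_smul, hf, smul_smul, pow_succ]

theorem trf_pow_range (T : A →ₗ[ℂ] A) (l : ℂ) (g : A) (n : ℕ) :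
    ∃ y, l • y - T y = l ^ n • g - (T ^ n) g := by
  induction n with
  | zero => exact ⟨0, by simp⟩
  | succ n ih =>
    obtain ⟨y, hy⟩ := ih
    refine ⟨l • y + (T ^ n) g, ?_⟩
    have h1 : l • (l • y + (T ^ n) g) - T (l • y + (T ^ n) g)
        = l • (l • y - T y) + (l • (T ^ n) g - T ((T ^ n) g)) := by
      rw [map_add, map_smul, smul_add, smul_sub]; abel
    rw [h1, hy, pow_succ' T, Module.End.mul_apply, smul_sub, smul_smul, pow_succ' l]
    abel

theorem trf_bij (T : A →ₗ[ℂ] A) (S : X →ₗ[ℂ] X) (r : A →ₗ[ℂ] X) (j : X →ₗ[ℂ] A)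
    (p : A →ₗ[ℂ] A) (n : ℕ) (hr : ∀ f, r (T f) = S (r f)) (hj : ∀ F, j (S F) = T (j F))
    (hrj : ∀ F, r (j F) = (S ^ n) F) (hjr : ∀ f, j (r f) = (T ^ n) f - p f)
    (hTp : ∀ f, T (p f) = p f) (hpT : ∀ f, p (T f) = p f) (l : ℂ) (h0 : l ≠ 0) (h1 : l ≠ 1) :
    Function.Bijective (fun f : A => l • f - T f) ↔
      Function.Bijective (fun F : X => l • F - S F) := by
  have hln : l ^ n ≠ 0 := pow_ne_zero n h0
  have hl1 : l - 1 ≠ 0 := sub_ne_zero.2 h1
  have injA : Function.Injective (fun f : A => l • f - T f) ↔ ∀ f, T f = l • f → f = 0 := by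
    constructor
    · intro h f hf
      apply h
      simp [hf]
    · intro h f g hfg
      have h2 : T (f - g) = l • (f - g) := by
        have h3 : l • f - T f = l • g - T g := hfg
        rw [map_sub, smul_sub]
        have h4 : T f = l • f - (l • g - T g) := by rw [← h3]; abel
        rw [h4]; abel
      exact sub_eq_zero.1 (h _ h2)
  have injX : Function.Injective (fun F : X => l • F - S F) ↔ ∀ F, S F = l • F → F = 0 := by
    constructor
    · intro h f hf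
      apply h
      simp [hf]
    · intro h f g hfg
      have h2 : S (f - g) = l • (f - g) := by
        have h3 : l • f - S f = l • g - S g := hfg
        rw [map_sub, smul_sub]
        have h4 : S f = l • f - (l • g - S g) := by rw [← h3]; abel
        rw [h4]; abel
      exact sub_eq_zero.1 (h _ h2)
  constructor
  · rintro ⟨hi, hs⟩
    refine ⟨injX.2 ?_, ?_⟩
    · intro F hF
      have h2 : j F = 0 := injA.1 hi _ (by rw [← hj, hF, map_smul])
      have h3 : (S ^ n) F = 0 := by rw [← hrj, h2, map_zero]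
      rw [trf_pow_eig S l F hF n] at h3
      exact (smul_eq_zero.1 h3).resolve_left hln
    · intro F
      obtain ⟨g, hg⟩ := hs (j F)
      obtain ⟨y, hy⟩ := trf_pow_range S l F n
      have hg' : l • g - T g = j F := hg
      have h2 : l • r g - S (r g) = (S ^ n) F := by
        rw [← hrj, ← hg', map_sub, map_smul, hr]
      refine ⟨(l ^ n)⁻¹ • (y + r g), ?_⟩
      have h3 : l • (y + r g) - S (y + r g) = l ^ n • F := by
        have h4 : l • (y + r g) - S (y + r g) = (l • y - S y) + (l • r g - S (r g)) := by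
          rw [map_add, smul_add]; abel
        rw [h4, hy, h2]; abel
      show l • ((l ^ n)⁻¹ • (y + r g)) - S ((l ^ n)⁻¹ • (y + r g)) = F
      rw [map_smul, smul_comm l, ← smul_sub, h3, smul_smul, inv_mul_cancel₀ hln, one_smul]
  · rintro ⟨hi, hs⟩
    refine ⟨injA.2 ?_, ?_⟩
    · intro f hf
      have h2 : r f = 0 := injX.1 hi _ (by rw [← hr, hf, map_smul])
      have h3 : (T ^ n) f - p f = 0 := by rw [← hjr, h2, map_zero]
      have h4 : p f = 0 := by
        have h5 := hpT f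
        rw [hf, map_smul] at h5
        have h6 : (l - 1) • p f = 0 := by rw [sub_smul, h5, one_smul, sub_self]
        exact (smul_eq_zero.1 h6).resolve_left hl1
      rw [h4, sub_zero, trf_pow_eig T l f hf n] at h3
      exact (smul_eq_zero.1 h3).resolve_left hln
    · intro g
      obtain ⟨F, hF⟩ := hs (r g)
      obtain ⟨y, hy⟩ := trf_pow_range T l g n
      have hF' : l • F - S F = r g := hF
      have h2 : l • j F - T (j F) = (T ^ n) g - p g := by
        rw [← hjr, ← hF', map_sub, map_smul, hj]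
      have h5 : l • ((l - 1)⁻¹ • p g) - T ((l - 1)⁻¹ • p g) = p g := by
        rw [map_smul, hTp, smul_smul, ← sub_smul]
        have h6 : l * (l - 1)⁻¹ - (l - 1)⁻¹ = 1 := by field_simp
        rw [h6, one_smul]
      refine ⟨(l ^ n)⁻¹ • (y + j F + (l - 1)⁻¹ • p g), ?_⟩
      have h3 : l • (y + j F + (l - 1)⁻¹ • p g) - T (y + j F + (l - 1)⁻¹ • p g) = l ^ n • g := by
        have h4 : l • (y + j F + (l - 1)⁻¹ • p g) - T (y + j F + (l - 1)⁻¹ • p g)
            = (l • y - T y) + (l • j F - T (j F))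
              + (l • ((l - 1)⁻¹ • p g) - T ((l - 1)⁻¹ • p g)) := by
          rw [map_add, map_add, smul_add, smul_add]; abel
        rw [h4, hy, h2, h5]; abel
      show l • ((l ^ n)⁻¹ • (y + j F + (l - 1)⁻¹ • p g))
        - T ((l ^ n)⁻¹ • (y + j F + (l - 1)⁻¹ • p g)) = g
      rw [map_smul T, smul_comm l, ← smul_sub, h3, smul_smul, inv_mul_cancel₀ hln, one_smul]

end trfAlg

theorem trf_spec {E : Type*} [NormedAddCommGroup E] [NormedSpace ℂ E] [CompleteSpace E]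
    (T : E →L[ℂ] E) (l : ℂ) :
    l ∈ spectrum ℂ T ↔ ¬ Function.Bijective (fun f : E => l • f - (T : E →ₗ[ℂ] E) f) := by
  rw [spectrum.mem_iff, ContinuousLinearMap.isUnit_iff_bijective]
  have h : (⇑(algebraMap ℂ (E →L[ℂ] E) l - T) : E → E)
      = fun f : E => l • f - (T : E →ₗ[ℂ] E) f := by
    funext f
    simp [Algebra.algebraMap_eq_smul_one]
  rw [h]

variable {A : Type*} [NormedCommRing A] [NormedAlgebra ℂ A] [CompleteSpace A] {T : A →L[ℂ] A}
  {ev : A →ₐ[ℂ] (ℂ → ℂ)} {φ : ℂ → ℂ} {N : ℕ}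
variable {X : Type*} [NormedAddCommGroup X] [NormedSpace ℂ X] [CompleteSpace X] {Ω : Set ℂ}
  {μ : ℝ} {e : X →ₗ[ℂ] (ℂ → ℂ)} {tr : ℂ → X →L[ℂ] X}

omit [CompleteSpace A] in
theorem trf_extA (h : Setup T ev φ N) (f g : A) (hfg : ∀ w ∈ HH, ev f w = ev g w) : f = g := by
  have h1 := h.norm_le (f - g) 0 le_rfl (fun w hw => by
    rw [map_sub, Pi.sub_apply, hfg w hw, sub_self, norm_zero])
  exact sub_eq_zero.1 (norm_le_zero_iff.1 h1)

omit [CompleteSpace X] in
theorem trf_extX (hX : TrSetup Ω e tr) (f g : X) (hfg : ∀ w ∈ Ω, e f w = e g w) : f = g := by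
  have h1 := hX.norm_le (f - g) 0 le_rfl (fun w hw => by
    rw [map_sub, Pi.sub_apply, hfg w hw, sub_self, norm_zero])
  exact sub_eq_zero.1 (norm_le_zero_iff.1 h1)

theorem trf_iter (hφ : Dyn φ) (n : ℕ) : ∀ w ∈ HH, φ^[n] w ∈ HH ∧ w.re ≤ (φ^[n] w).re := by
  induction n with
  | zero => intro w hw; exact ⟨hw, le_rfl⟩
  | succ n ih =>
    intro w hw
    rw [Function.iterate_succ_apply']
    exact ⟨hφ.maps _ (ih w hw).1, (ih w hw).2.trans (hφ.re_le _ (ih w hw).1)⟩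

theorem trf_iter_diff (hφ : Dyn φ) (n : ℕ) : DifferentiableOn ℂ (φ^[n]) HH := by
  induction n with
  | zero => exact differentiableOn_id
  | succ n ih =>
    rw [Function.iterate_succ']
    exact hφ.dphi.comp ih (fun w hw => (trf_iter hφ n w hw).1)

theorem trf_lim_unique (F : ℂ → ℂ) (a b : ℂ)
    (ha : ∀ ε : ℝ, 0 < ε → ∃ R : ℝ, ∀ w ∈ HH, R ≤ ‖w‖ → ‖F w - a‖ ≤ ε)
    (hb : ∀ ε : ℝ, 0 < ε → ∃ R : ℝ, ∀ w ∈ HH, R ≤ w.re → ‖F w - b‖ ≤ ε) : a = b := by
  have h1 : ∀ ε : ℝ, 0 < ε → ‖a - b‖ ≤ 0 + ε := by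
    intro ε hε
    obtain ⟨R1, hR1⟩ := ha (ε / 2) (by positivity)
    obtain ⟨R2, hR2⟩ := hb (ε / 2) (by positivity)
    set t : ℝ := max 1 (max R1 R2) with ht
    have ht1 : 1 ≤ t := le_max_left _ _
    have ht2 : R1 ≤ t := (le_max_left _ _).trans (le_max_right _ _)
    have ht3 : R2 ≤ t := (le_max_right _ _).trans (le_max_right _ _)
    have hw : (t : ℂ) ∈ HH := by
      show 0 < (t : ℂ).re
      rw [Complex.ofReal_re]; linarith
    have h2 := hR1 _ hw (by
      rw [Complex.norm_real, Real.norm_eq_abs]; exact ht2.trans (le_abs_self _))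
    have h3 := hR2 _ hw (by rw [Complex.ofReal_re]; exact ht3)
    have h4 : a - b = (F t - b) - (F t - a) := by ring
    rw [h4]
    have h5 := norm_sub_le (F t - b) (F t - a)
    linarith
  have h2 : ‖a - b‖ ≤ 0 := le_of_forall_pos_le_add h1
  exact sub_eq_zero.1 (norm_le_zero_iff.1 h2)

theorem transfer (h : Setup T ev φ N) {D : Set ℂ} {H K : ℂ → ℂ} {n : ℕ} (hD : Dom Ω μ)
    (hM : Model φ Ω D H K) (hn : N ≤ n) (hsub : closure (φ^[n] '' HH) ∩ HH ⊆ D)
    (hX : TrSetup Ω e tr) (l : ℂ) (h0 : l ≠ 0) (h1 : l ≠ 1) :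
    l ∈ spectrum ℂ T ↔ l ∈ spectrum ℂ (tr 1) := by
  obtain ⟨L, hL⟩ := h.lim
  have hφ := h.dyn
  have h1A : (1 : ℂ) ∈ Adm Ω := hD.cone (by
    show |(1 : ℂ).im| ≤ μ * (1 : ℂ).re
    simp [hD.pos.le])
  have hLT : ∀ f, L (T f) = L f := by
    intro f
    refine trf_lim_unique (ev (T f)) _ _ (hL (T f)) ?_
    intro ε hε
    obtain ⟨R, hR⟩ := hL f ε hε
    refine ⟨R, fun w hw hRw => ?_⟩
    rw [h.comp f w hw]
    exact hR _ (hφ.maps w hw) (hRw.trans ((hφ.re_le w hw).trans (Complex.re_le_norm _)))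
  have hT1 : T 1 = 1 := trf_extA h _ _ (fun w hw => by rw [h.comp _ w hw]; simp)
  have hTn : ∀ (m : ℕ) (f : A), ∀ w ∈ HH,
      ev (((T : A →ₗ[ℂ] A) ^ m) f) w = ev f (φ^[m] w) := by
    intro m
    induction m with
    | zero => intro f w hw; simp
    | succ m ih =>
      intro f w hw
      rw [pow_succ', Module.End.mul_apply, Function.iterate_succ_apply,
        ← ih f _ (hφ.maps w hw)]
      exact h.comp _ w hw
  have hD' : ∀ w ∈ HH, φ^[n] w ∈ D := fun w hw =>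
    hsub ⟨subset_closure ⟨w, hw, rfl⟩, (trf_iter hφ n w hw).1⟩
  have hrex : ∀ f : A, ∃ F : X, ∀ ξ ∈ Ω, e F ξ = ev f (K ξ) - L f := by
    intro f
    refine hX.ex (fun ξ => ev f (K ξ) - L f) ?_ ⟨‖f‖ + ‖L f‖, fun ξ hξ => ?_⟩ ?_
    · exact ((h.diff f).comp hM.dK (fun ξ hξ => hM.sub (hM.mK ξ hξ))).sub_const _
    · exact (norm_sub_le _ _).trans (add_le_add (h.le f _ (hM.sub (hM.mK ξ hξ))) le_rfl)
    · intro ε hε
      obtain ⟨R, hR⟩ := hL f ε hε
      obtain ⟨R', hR'⟩ := hM.propK R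
      exact ⟨R', fun ξ hξ hRξ => hR _ (hM.sub (hM.mK ξ hξ)) (hR' ξ hξ hRξ)⟩
  have hjex : ∀ F : X, ∃ f : A, ∀ w ∈ HH, ev f w = e F (H (φ^[n] w)) := by
    intro F
    have hG : DifferentiableOn ℂ (fun w => e F (H w)) D := (hX.diff F).comp hM.dH hM.mH
    refine h.lift n hn (fun w => e F (H w)) (hG.continuousOn.mono hsub)
      (hG.comp (trf_iter_diff hφ n) hD') ?_
    intro ε hε
    obtain ⟨R, hR⟩ := hX.van F ε hε
    obtain ⟨R', hR'⟩ := hM.propH R
    exact ⟨R', fun w hw hRw => hR _ (hM.mH w (hsub hw)) (hR' w (hsub hw) hRw)⟩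
  choose r0 hr0 using hrex
  choose j0 hj0 using hjex
  let r : A →ₗ[ℂ] X :=
    { toFun := r0
      map_add' := fun f g => trf_extX hX _ _ (fun ξ hξ => by
        rw [map_add e, Pi.add_apply, hr0 _ ξ hξ, hr0 _ ξ hξ, hr0 _ ξ hξ, map_add, map_add,
          Pi.add_apply]
        ring)
      map_smul' := fun c f => trf_extX hX _ _ (fun ξ hξ => by
        rw [map_smul e, Pi.smul_apply, hr0 _ ξ hξ, hr0 _ ξ hξ, map_smul, map_smul, Pi.smul_apply]
        simp only [smul_eq_mul, RingHom.id_apply]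
        ring) }
  let j : X →ₗ[ℂ] A :=
    { toFun := j0
      map_add' := fun f g => trf_extA h _ _ (fun w hw => by
        rw [map_add ev, Pi.add_apply, hj0 _ w hw, hj0 _ w hw, hj0 _ w hw, map_add, Pi.add_apply])
      map_smul' := fun c f => trf_extA h _ _ (fun w hw => by
        rw [map_smul ev, Pi.smul_apply, hj0 _ w hw, hj0 _ w hw, map_smul, Pi.smul_apply]
        simp only [RingHom.id_apply]) }
  have hr : ∀ f, ∀ ξ ∈ Ω, e (r f) ξ = ev f (K ξ) - L f := hr0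
  have hj : ∀ F, ∀ w ∈ HH, ev (j F) w = e F (H (φ^[n] w)) := hj0
  let p : A →ₗ[ℂ] A := (L : A →ₗ[ℂ] ℂ).smulRight (1 : A)
  have hp : ∀ f, p f = L f • (1 : A) := fun f => rfl
  have hHφ : ∀ u ∈ D, H (φ u) = H u + 1 := by
    intro u hu
    have h2 := hM.conj _ (hM.mH u hu)
    rw [hM.KH u hu] at h2
    rw [h2, hM.HK _ (h1A _ (hM.mH u hu))]
  have hΩn : ∀ (m : ℕ), ∀ ξ ∈ Ω, ξ + m ∈ Ω := by
    intro m
    induction m with
    | zero => intro ξ hξ; simpa using hξ
    | succ m ih =>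
      intro ξ hξ
      have h2 := h1A _ (ih ξ hξ)
      rw [Nat.cast_succ, ← add_assoc]
      exact h2
  have hKn : ∀ (m : ℕ), ∀ ξ ∈ Ω, φ^[m] (K ξ) = K (ξ + m) := by
    intro m
    induction m with
    | zero => intro ξ hξ; simp
    | succ m ih =>
      intro ξ hξ
      rw [Function.iterate_succ_apply', ih ξ hξ, hM.conj _ (hΩn m ξ hξ), Nat.cast_succ,
        add_assoc]
  have hSn : ∀ (m : ℕ) (F : X), ∀ ξ ∈ Ω,
      e ((((tr 1 : X →L[ℂ] X) : X →ₗ[ℂ] X) ^ m) F) ξ = e F (ξ + m) := by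
    intro m
    induction m with
    | zero => intro F ξ hξ; simp
    | succ m ih =>
      intro F ξ hξ
      rw [pow_succ, Module.End.mul_apply, ih _ ξ hξ, Nat.cast_succ, ← add_assoc]
      exact hX.tr_eq 1 h1A F _ (hΩn m ξ hξ)
  have hLj : ∀ F, L (j F) = 0 := by
    intro F
    refine trf_lim_unique (ev (j F)) _ _ (hL (j F)) ?_
    intro ε hε
    obtain ⟨R, hR⟩ := hX.van F ε hε
    obtain ⟨R', hR'⟩ := hM.propH R
    refine ⟨R', fun w hw hRw => ?_⟩
    rw [hj F w hw, sub_zero]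
    exact hR _ (hM.mH _ (hD' w hw)) (hR' _ (hD' w hw)
      (hRw.trans ((trf_iter hφ n w hw).2.trans (Complex.re_le_norm _))))
  rw [trf_spec, trf_spec, not_iff_not]
  refine trf_bij (T : A →ₗ[ℂ] A) ((tr 1 : X →L[ℂ] X) : X →ₗ[ℂ] X) r j p n ?_ ?_ ?_ ?_ ?_ ?_
    l h0 h1
  · intro f
    refine trf_extX hX _ _ (fun ξ hξ => ?_)
    show e (r (T f)) ξ = e (tr 1 (r f)) ξ
    rw [hX.tr_eq 1 h1A _ ξ hξ, hr _ ξ hξ, hr _ _ (h1A ξ hξ), hLT,
      h.comp f _ (hM.sub (hM.mK ξ hξ)), hM.conj ξ hξ]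
  · intro F
    refine trf_extA h _ _ (fun w hw => ?_)
    show ev (j (tr 1 F)) w = ev (T (j F)) w
    rw [h.comp _ w hw, hj _ w hw, hj _ _ (hφ.maps w hw), ← Function.iterate_succ_apply,
      Function.iterate_succ_apply', hHφ _ (hD' w hw),
      hX.tr_eq 1 h1A _ _ (hM.mH _ (hD' w hw))]
  · intro F
    refine trf_extX hX _ _ (fun ξ hξ => ?_)
    rw [hr _ ξ hξ, hLj, sub_zero, hj _ _ (hM.sub (hM.mK ξ hξ)), hKn n ξ hξ,
      hM.HK _ (hΩn n ξ hξ), hSn n F ξ hξ]
  · intro f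
    refine trf_extA h _ _ (fun w hw => ?_)
    rw [hj _ w hw, hr _ _ (hM.mH _ (hD' w hw)), hM.KH _ (hD' w hw), map_sub ev, Pi.sub_apply,
      hTn n f w hw, hp, map_smul, map_one]
    simp
  · intro f
    show T (p f) = p f
    rw [hp, map_smul, hT1]
  · intro f
    show p (T f) = p f
    rw [hp, hp, hLT]

end Pool.Agent.H28Z.Da
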